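import Pool.Agent.Helper98.GX.St4

/-!
# Project GX, module STA: log canonicity implies semistability
-/

set_option autoImplicit false

open scoped BigOperators

namespace Pool.Agent.Helper80.GX

open Pool.Agent.Helper98.GX
open Pool.Agent.Helper53.CX (DivVal LinSys IsNefCartier)

/-! ### Linear algebra -/

/-- The block as a space of functions. -/
private noncomputable def blkEquiv {N r : ℕ} (bl : Fin N → Fin r) (k : Fin r) :
    Blk bl k ≃ₗ[ℂ] ({a // bl a = k} → ℂ) where
  toFun x a := (x : Fin N → ℂ) a.1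
  map_add' _ _ := rfl
  map_smul' _ _ := rfl
  invFun f := ⟨fun a => if h : bl a = k then f ⟨a, h⟩ else 0, fun a ha => dif_neg ha⟩
  left_inv x := by
    apply Subtype.ext
    funext a
    by_cases h : bl a = k
    · show (if h : bl a = k then (x : Fin N → ℂ) a else 0) = _
      rw [dif_pos h]
    · show (if h : bl a = k then (x : Fin N → ℂ) a else 0) = _
      rw [dif_neg h]
      exact (x.2 a h).symm
  right_inv f := by
    funext a
    show (if h : bl a.1 = k then f ⟨a.1, h⟩ else 0) = f a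
    rw [dif_pos a.2]

private theorem finrank_blk {N r : ℕ} (bl : Fin N → Fin r) (k : Fin r) :
    Module.finrank ℂ (Blk bl k) = Fintype.card {a // bl a = k} := by
  rw [(blkEquiv bl k).finrank_eq, Module.finrank_pi]

/-- An abstract adapted basis. -/
private theorem adaptedAbs {E : Type} [AddCommGroup E] [Module ℂ E] [Module.Finite ℂ E]
    {ι : Type} [Fintype ι] [DecidableEq ι]
    (hcard : Fintype.card ι = Module.finrank ℂ E) (U1 : Submodule ℂ E) :
    ∃ (Be : Module.Basis ι ℂ E) (J : Finset ι), J.card = Module.finrank ℂ U1 ∧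
      ∀ x ∈ U1, ∀ i, Be.repr x i ≠ 0 → i ∈ J := by
  obtain ⟨U2, hc⟩ := Submodule.exists_isCompl U1
  set b1 := Module.finBasis ℂ U1
  set b2 := Module.finBasis ℂ U2
  set Bs := (b1.prod b2).map (Submodule.prodEquivOfIsCompl U1 U2 hc) with hBs
  have hcard2 : Fintype.card ι =
      Fintype.card (Fin (Module.finrank ℂ U1) ⊕ Fin (Module.finrank ℂ U2)) := by
    rw [hcard, Module.finrank_eq_card_basis Bs]
  set e : ι ≃ Fin (Module.finrank ℂ U1) ⊕ Fin (Module.finrank ℂ U2) :=
    Fintype.equivOfCardEq hcard2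
  refine ⟨Bs.reindex e.symm, Finset.univ.image fun i => e.symm (Sum.inl i), ?_, ?_⟩
  · rw [Finset.card_image_of_injective, Finset.card_univ, Fintype.card_fin]
    intro i j hij
    exact Sum.inl_injective (e.symm.injective hij)
  · intro x hx i hi
    rw [Module.Basis.repr_reindex_apply, Equiv.symm_symm] at hi
    rw [Finset.mem_image]
    rcases hei : e i with j | j
    · exact ⟨j, Finset.mem_univ _, by rw [← hei, Equiv.symm_apply_apply]⟩
    · exfalso
      apply hi
      rw [hei, hBs, Module.Basis.map_repr, LinearEquiv.trans_apply, Module.Basis.prod_repr_inr]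
      have h1 : ((Submodule.prodEquivOfIsCompl U1 U2 hc).symm x).2 = 0 :=
        (Submodule.prodEquivOfIsCompl_symm_apply_snd_eq_zero U1 U2 hc).2 hx
      rw [h1, map_zero]
      rfl

/-- A graded basis adapted to a subspace of a block. -/
private theorem adapted {N r : ℕ} (bl : Fin N → Fin r) (k : Fin r)
    (U : Submodule ℂ (Fin N → ℂ)) (hU : U ≤ Blk bl k) :
    ∃ (T : Matrix (Fin N) (Fin N) ℂ) (J : Finset (Fin N)), IsUnit T.det ∧ Graded bl T ∧
      (∀ a ∈ J, bl a = k) ∧ J.card = Module.finrank ℂ U ∧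
      ∀ y : Fin N → ℂ, (∑ a, y a • T a) ∈ U → ∀ a, y a ≠ 0 → a ∈ J := by
  obtain ⟨Be, J1, hJ1, hBe⟩ := adaptedAbs (finrank_blk bl k).symm (U.comap (Blk bl k).subtype)
  set T : Matrix (Fin N) (Fin N) ℂ := fun a =>
    if h : bl a = k then ((Be ⟨a, h⟩ : Blk bl k) : Fin N → ℂ) else Pi.single a 1 with hT
  have hTk : ∀ (a : Fin N) (h : bl a = k), T a = ((Be ⟨a, h⟩ : Blk bl k) : Fin N → ℂ) := by
    intro a h
    rw [hT]
    exact dif_pos h
  have hTn : ∀ a : Fin N, bl a ≠ k → T a = Pi.single a 1 := by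
    intro a h
    rw [hT]
    exact dif_neg h
  -- the coordinates
  have key : ∀ (y : Fin N → ℂ) (hy : (∑ a, y a • T a) ∈ Blk bl k),
      (∀ b, bl b ≠ k → y b = 0) ∧ ∀ a : {a // bl a = k}, Be.repr ⟨_, hy⟩ a = y a.1 := by
    intro y hy
    have h1 : ∀ b, bl b ≠ k → y b = 0 := by
      intro b hb
      have h2 := hy b hb
      rw [Finset.sum_apply, Finset.sum_eq_single b] at h2
      · rw [hTn b hb] at h2
        simpa using h2
      · intro a _ hab
        by_cases ha : bl a = k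
        · rw [hTk a ha, Pi.smul_apply, (Be ⟨a, ha⟩).2 b hb, smul_zero]
        · rw [hTn a ha, Pi.smul_apply, Pi.single_eq_of_ne (Ne.symm hab), smul_zero]
      · intro h; exact absurd (Finset.mem_univ b) h
    refine ⟨h1, ?_⟩
    have h2 : (⟨_, hy⟩ : Blk bl k) = ∑ a : {a // bl a = k}, y a.1 • Be a := by
      apply Subtype.ext
      show ∑ a, y a • T a = _
      rw [AddSubmonoidClass.coe_finsetSum]
      have h3 : ∀ a : {a // bl a = k}, ((y a.1 • Be a : Blk bl k) : Fin N → ℂ) = y a.1 • T a.1 := by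
        intro a
        rw [hTk a.1 a.2]
        rfl
      rw [Finset.sum_congr rfl (fun a _ => h3 a)]
      rw [← Finset.sum_subtype (Finset.univ.filter fun a => bl a = k)
        (fun a => by rw [Finset.mem_filter]; exact ⟨fun h => h.2, fun h => ⟨Finset.mem_univ _, h⟩⟩)
        (fun a => y a • T a)]
      rw [Finset.sum_filter]
      apply Finset.sum_congr rfl
      intro a _
      by_cases ha : bl a = k
      · rw [if_pos ha]
      · rw [if_neg ha, h1 a ha, zero_smul]
    intro a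
    rw [h2, Be.repr_sum_self]
  refine ⟨T, J1.image Subtype.val, ?_, ?_, ?_, ?_, ?_⟩
  · rw [← Matrix.isUnit_iff_isUnit_det, ← Matrix.linearIndependent_rows_iff_isUnit,
      Fintype.linearIndependent_iff]
    intro y hy
    have hy0 : (∑ a, y a • T a) = 0 := hy
    have hyB : (∑ a, y a • T a) ∈ Blk bl k := by rw [hy0]; exact Submodule.zero_mem _
    obtain ⟨h1, h2⟩ := key y hyB
    intro a
    by_cases ha : bl a = k
    · rw [← h2 ⟨a, ha⟩]
      have h3 : (⟨_, hyB⟩ : Blk bl k) = 0 := Subtype.ext hy0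
      rw [h3, map_zero]
      rfl
    · exact h1 a ha
  · intro a b hab
    by_cases ha : bl a = k
    · rw [hTk a ha] at hab
      by_contra hb
      apply hab
      apply (Be ⟨a, ha⟩).2 b
      rw [← ha]
      exact hb
    · rw [hTn a ha] at hab
      by_cases hb : b = a
      · rw [hb]
      · exact absurd (Pi.single_eq_of_ne hb 1) hab
  · intro a ha
    rw [Finset.mem_image] at ha
    obtain ⟨b, _, rfl⟩ := ha
    exact b.2
  · rw [Finset.card_image_of_injective _ Subtype.val_injective, hJ1]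
    exact (Submodule.comapSubtypeEquivOfLe hU).finrank_eq
  · intro y hy a ha
    obtain ⟨h1, h2⟩ := key y (hU hy)
    have hak : bl a = k := by
      by_contra h
      exact ha (h1 a h)
    rw [Finset.mem_image]
    refine ⟨⟨a, hak⟩, ?_, rfl⟩
    apply hBe ⟨_, hU hy⟩ hy
    rw [h2]
    exact ha

/-- Coordinates with respect to a graded basis. -/
private theorem graded_coord {N r : ℕ} (bl : Fin N → Fin r) (T : Matrix (Fin N) (Fin N) ℂ)
    (hT : IsUnit T.det) (hg : Graded bl T) (l : Fin r) (x : Fin N → ℂ) (hx : x ∈ Blk bl l) :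
    ∃ y ∈ Blk bl l, ∑ a, y a • T a = x := by
  set y0 : Fin N → ℂ := Matrix.vecMul x T⁻¹ with hy0
  have h0 : ∑ a, y0 a • T a = x := by
    have h1 : Matrix.vecMul y0 T = x := by
      rw [hy0, Matrix.vecMul_vecMul, Matrix.nonsing_inv_mul _ hT, Matrix.vecMul_one]
    rw [← h1]
    funext b
    rw [Finset.sum_apply]
    rfl
  refine ⟨fun a => if bl a = l then y0 a else 0, fun a ha => if_neg ha, ?_⟩
  funext b
  rw [Finset.sum_apply]
  by_cases hb : bl b = l
  · have h2 := congrFun h0 b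
    rw [Finset.sum_apply] at h2
    rw [← h2]
    apply Finset.sum_congr rfl
    intro a _
    rw [Pi.smul_apply, Pi.smul_apply]
    by_cases ha : bl a = l
    · show (if bl a = l then y0 a else 0) • T a b = _
      rw [if_pos ha]
    · have h3 : T a b = 0 := by
        by_contra h
        exact ha ((hg a b h).symm.trans hb)
      rw [h3, smul_zero, smul_zero]
  · rw [hx b hb]
    apply Finset.sum_eq_zero
    intro a _
    rw [Pi.smul_apply]
    by_cases ha : bl a = l
    · have h3 : T a b = 0 := by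
        by_contra h
        exact hb ((hg a b h).trans ha)
      rw [h3, smul_zero]
    · show (if bl a = l then y0 a else 0) • T a b = _
      rw [if_neg ha, zero_smul]

private theorem blk_eq {N r : ℕ} {bl : Fin N → Fin r} {W : Submodule ℂ (Fin N → ℂ)}
    (hne : W ≠ ⊥) {k l : Fin r} (hk : W ≤ Blk bl k) (hl : W ≤ Blk bl l) : k = l := by
  by_contra hkl
  apply hne
  rw [Submodule.eq_bot_iff]
  intro x hx
  funext a
  by_cases ha : bl a = k
  · exact hl hx a (by rw [ha]; exact hkl)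
  · exact hk hx a ha

private theorem sum_finrank_le {N r : ℕ} (bl : Fin N → Fin r) (U : Submodule ℂ (Fin N → ℂ)) :
    ∑ k, Module.finrank ℂ (U ⊓ Blk bl k : Submodule ℂ (Fin N → ℂ)) ≤ Module.finrank ℂ U := by
  rw [← Module.finrank_pi_fintype ℂ (M := fun k => (U ⊓ Blk bl k : Submodule ℂ (Fin N → ℂ)))]
  set φ : ((k : Fin r) → (U ⊓ Blk bl k : Submodule ℂ (Fin N → ℂ))) →ₗ[ℂ] U :=
    ∑ k, (Submodule.inclusion inf_le_left).comp (LinearMap.proj k) with hφ
  apply LinearMap.finrank_le_finrank_of_injective (f := φ)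
  rw [← LinearMap.ker_eq_bot, LinearMap.ker_eq_bot']
  intro x hx
  have h1 : ∑ k, (x k : Fin N → ℂ) = 0 := by
    have h2 : ((φ x : U) : Fin N → ℂ) = ∑ k, (x k : Fin N → ℂ) := by
      rw [hφ, LinearMap.sum_apply, AddSubmonoidClass.coe_finsetSum]
      rfl
    rw [← h2, hx]
    rfl
  funext k
  apply Subtype.ext
  funext a
  show (x k : Fin N → ℂ) a = 0
  by_cases ha : bl a = k
  · have h2 := congrFun h1 a
    rw [Finset.sum_apply, Finset.sum_eq_single k] at h2
    · exact h2
    · intro l _ hl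
      exact (x l).2.2 a (by rw [ha]; exact Ne.symm hl)
    · intro h; exact absurd (Finset.mem_univ k) h
  · exact (x k).2.2 a ha

/-! ### The estimate -/

private theorem sec_comb {K : Type} [Field K] [Algebra ℂ K] {V : NormalProj K} {r : ℕ}
    {B : ClassBasis V r} {n : ℕ} {L L'' : LogCoord K n} (Fr : Frame B L) (Fr' : Frame B L'')
    (T : Matrix (Fin (n + r)) (Fin (n + r)) ℂ) (hg : ∀ a, Fr'.g a = Fr.sec (T a))
    (y : Fin (n + r) → ℂ) : Fr'.sec y = Fr.sec (∑ a, y a • T a) := by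
  unfold Frame.sec
  have h1 : ∀ a, algebraMap ℂ K (y a) * Fr'.g a =
      ∑ b, algebraMap ℂ K (y a) * (algebraMap ℂ K (T a b) * Fr.g b) := by
    intro a
    rw [hg a, Frame.sec, Finset.mul_sum]
  rw [Finset.sum_congr rfl (fun a _ => h1 a), Finset.sum_comm]
  apply Finset.sum_congr rfl
  intro b _
  rw [Finset.sum_apply, map_sum, Finset.sum_mul]
  apply Finset.sum_congr rfl
  intro a _
  rw [Pi.smul_apply, smul_eq_mul, map_mul, mul_assoc]

private theorem sum_bl {N r : ℕ} (bl : Fin N → Fin r) (Φ : Fam bl) (s : Fin r → ℝ) :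
    ∑ i, Φ.c i * s (Φ.bI i) = ∑ a, s (bl a) := by
  have h1 : ∑ i, Φ.c i * s (Φ.bI i) = ∑ k, s k * ∑ i, (if Φ.bI i = k then Φ.c i else 0) := by
    simp_rw [Finset.mul_sum]
    rw [Finset.sum_comm]
    apply Finset.sum_congr rfl
    intro i _
    rw [Finset.sum_eq_single (Φ.bI i)]
    · rw [if_pos rfl, mul_comm]
    · intro k _ hk
      rw [if_neg (Ne.symm hk), mul_zero]
    · intro h; exact absurd (Finset.mem_univ _) h
  rw [h1]
  simp_rw [Φ.sum, Finset.card_filter]
  push_cast
  simp_rw [Finset.mul_sum]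
  rw [Finset.sum_comm]
  apply Finset.sum_congr rfl
  intro a _
  rw [Finset.sum_eq_single (bl a)]
  · rw [if_pos rfl, mul_one]
  · intro k _ hk
    rw [if_neg (Ne.symm hk), mul_zero]
  · intro h; exact absurd (Finset.mem_univ _) h

private theorem step1 (hSEC : StSEC) (hLFR : StLFR) (hMVF : StMVF) (K : Type) [Field K]
    [Algebra ℂ K] (V : NormalProj K) (r : ℕ) (B : ClassBasis V r) (n : ℕ) (L : LogCoord K n)
    (Fr : Frame B L) (Φ : Fam Fr.bl)
    (H : ∀ v, ∑ i, Φ.c i * (Fr.smin v (Φ.W i) : ℝ) ≤ (Fr.Ad v : ℝ)) (k : Fin r)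
    (U : Submodule ℂ (Fin (n + r) → ℂ)) (hU : U ≤ Blk Fr.bl k) :
    Φ.w U ≤ (Module.finrank ℂ U : ℝ) := by
  classical
  obtain ⟨T, J, hT, hgr, hJk, hJc, hTJ⟩ := adapted Fr.bl k U hU
  by_cases hJe : J.Nonempty
  swap
  · -- the case of the zero space
    rw [Finset.not_nonempty_iff_eq_empty] at hJe
    have h0 : Module.finrank ℂ U = 0 := by rw [← hJc, hJe, Finset.card_empty]
    have hUb : U = ⊥ := Submodule.finrank_eq_zero.1 h0
    rw [h0, hUb, Fam.w, Nat.cast_zero]
    apply le_of_eq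
    apply Finset.sum_eq_zero
    intro i _
    rw [if_neg]
    intro h
    exact Φ.ne i (le_bot_iff.1 h)
  by_cases hJa : ∃ a, Fr.bl a = k ∧ a ∉ J
  swap
  · -- the case of the whole block
    push Not at hJa
    have h1 : J = Finset.univ.filter fun a => Fr.bl a = k := by
      ext a
      rw [Finset.mem_filter]
      exact ⟨fun h => ⟨Finset.mem_univ _, hJk a h⟩, fun h => hJa a h.2⟩
    rw [← hJc, h1, ← Φ.sum k, Fam.w]
    apply Finset.sum_le_sum
    intro i _
    by_cases hi : Φ.W i ≤ U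
    · rw [if_pos hi, if_pos (blk_eq (Φ.ne i) (Φ.le i) (hi.trans hU))]
    · rw [if_neg hi]
      split_ifs
      · exact (Φ.pos i).le
      · exact le_refl _
  -- the main case
  obtain ⟨L'', Fr', hbl, hg', hom⟩ := hLFR K V r B n L Fr T hT hgr
  obtain ⟨v, s, hv, hvg, hvs⟩ := hMVF K V r B n L'' Fr' k J (by rw [hbl]; exact hJk) hJe
    (by rw [hbl]; exact hJa)
  rw [hbl] at hvg hvs
  have hAd : (Fr.Ad v : ℝ) = (∑ a, (s (Fr.bl a) : ℝ)) + (J.card : ℝ) := by
    have h1 : Fr.Ad v = (∑ a, s (Fr.bl a)) + (J.card : ℤ) := by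
      have h2 : Fr.Ad v = ∑ a, v.ord (Fr'.g a) := by
        rw [Frame.Ad]
        have := hom v
        rw [hv] at this
        linarith
      rw [h2, Finset.sum_congr rfl (fun a _ => hvg a), Finset.sum_add_distrib, Finset.sum_boole,
        Finset.filter_mem_eq_inter, Finset.univ_inter]
    rw [h1]
    push_cast
    rfl
  have hsm : ∀ i, (s (Φ.bI i) : ℝ) + (if Φ.W i ≤ U then 1 else 0) ≤ (Fr.smin v (Φ.W i) : ℝ) := by
    intro i
    obtain ⟨x, hxW, hx0, hxo⟩ := ((hSEC K V r B n L Fr).2 v (Φ.bI i) (Φ.W i) (Φ.le i) (Φ.ne i)).2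
    obtain ⟨y, hyB, hyx⟩ := graded_coord Fr.bl T hT hgr (Φ.bI i) x (Φ.le i hxW)
    have hy0 : y ≠ 0 := by
      intro h
      apply hx0
      rw [← hyx, h]
      exact Finset.sum_eq_zero fun a _ => by rw [Pi.zero_apply, zero_smul]
    have hsec : Fr.sec x = Fr'.sec y := by rw [sec_comb Fr Fr' T hg' y, hyx]
    rw [← hxo, hsec]
    obtain ⟨h1, h2⟩ := hvs (Φ.bI i) y hyB hy0
    by_cases hi : Φ.W i ≤ U
    · rw [if_pos hi, h1 (hTJ y (by rw [hyx]; exact hi hxW))]
      push_cast
      exact le_refl _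
    · rw [if_neg hi]
      by_cases hyJ : ∀ a, y a ≠ 0 → a ∈ J
      · rw [h1 hyJ]
        push_cast
        linarith
      · push Not at hyJ
        rw [h2 hyJ]
        linarith
  have h3 : ∑ i, Φ.c i * ((s (Φ.bI i) : ℝ) + (if Φ.W i ≤ U then 1 else 0)) ≤
      (∑ a, (s (Fr.bl a) : ℝ)) + (J.card : ℝ) := by
    rw [← hAd]
    refine le_trans ?_ (H v)
    apply Finset.sum_le_sum
    intro i _
    exact mul_le_mul_of_nonneg_left (hsm i) (Φ.pos i).le
  simp_rw [mul_add] at h3
  rw [Finset.sum_add_distrib, sum_bl Fr.bl Φ (fun k => (s k : ℝ))] at h3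
  have h4 : ∑ i, Φ.c i * (if Φ.W i ≤ U then (1 : ℝ) else 0) = Φ.w U := by
    rw [Fam.w]
    apply Finset.sum_congr rfl
    intro i _
    by_cases hi : Φ.W i ≤ U
    · rw [if_pos hi, if_pos hi, mul_one]
    · rw [if_neg hi, if_neg hi, mul_zero]
  rw [h4, hJc] at h3
  linarith

/-- **Module STA.** -/
theorem hSTA (hSEC : StSEC) (hLFR : StLFR) (hMVF : StMVF) : StSTA := by
  classical
  intro K _ _ V r B n L Fr Φ H U
  have h1 : Φ.w U ≤ ∑ k, Φ.w (U ⊓ Blk Fr.bl k) := by
    unfold Fam.w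
    rw [Finset.sum_comm]
    apply Finset.sum_le_sum
    intro i _
    have h2 : ∀ k, 0 ≤ (if Φ.W i ≤ U ⊓ Blk Fr.bl k then Φ.c i else 0) := by
      intro k
      split_ifs
      · exact (Φ.pos i).le
      · exact le_refl _
    by_cases hi : Φ.W i ≤ U
    · rw [if_pos hi]
      have h3 := Finset.single_le_sum (fun k _ => h2 k) (Finset.mem_univ (Φ.bI i))
      rw [if_pos (le_inf hi (Φ.le i))] at h3
      exact h3
    · rw [if_neg hi]
      exact Finset.sum_nonneg fun k _ => h2 k
  have h2 : ∑ k, Φ.w (U ⊓ Blk Fr.bl k) ≤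
      ∑ k, (Module.finrank ℂ (U ⊓ Blk Fr.bl k : Submodule ℂ (Fin (n + r) → ℂ)) : ℝ) := by
    apply Finset.sum_le_sum
    intro k _
    exact step1 hSEC hLFR hMVF K V r B n L Fr Φ H k _ inf_le_right
  have h3 : (∑ k, (Module.finrank ℂ (U ⊓ Blk Fr.bl k : Submodule ℂ (Fin (n + r) → ℂ)) : ℝ)) ≤
      (Module.finrank ℂ U : ℝ) := by
    exact_mod_cast sum_finrank_le Fr.bl U
  exact h1.trans (h2.trans h3)

end Pool.Agent.Helper80.GX
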